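import Pool.Agent.Q189.IB.Stm3

/-!
# Project IB (helper189), job RED: beta values modulo integers
-/

set_option autoImplicit false

namespace Pool.Agent.Q150.IB

open Pool.Agent.Q189.IB

theorem inc_eq (u v : ℝ) (hu : 0 < u) (hv : 0 < v) :
    inc u v 1 = Real.Gamma u * Real.Gamma v / Real.Gamma (u + v) := by
  have h1 : Complex.betaIntegral (u : ℂ) (v : ℂ) = ((inc u v 1 : ℝ) : ℂ) := by
    unfold Complex.betaIntegral inc
    rw [← intervalIntegral.integral_ofReal]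
    apply intervalIntegral.integral_congr
    intro x hx
    rw [Set.uIcc_of_le zero_le_one] at hx
    show (x : ℂ) ^ ((u : ℂ) - 1) * (1 - (x : ℂ)) ^ ((v : ℂ) - 1) =
      ((x ^ (u - 1) * (1 - x) ^ (v - 1) : ℝ) : ℂ)
    rw [Complex.ofReal_mul, Complex.ofReal_cpow hx.1, Complex.ofReal_cpow (by linarith [hx.2])]
    push_cast
    rfl
  have h2 := ProbabilityTheory.beta_eq_betaIntegralReal u v hu hv
  rw [h1, Complex.ofReal_re] at h2
  rw [← h2]
  rfl

theorem gamma_add_nat (x : ℚ) (hx : 0 < x) (n : ℕ) :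
    ∃ q : ℚ, 0 < q ∧ Real.Gamma ((x : ℝ) + n) = q * Real.Gamma (x : ℝ) := by
  induction n with
  | zero => exact ⟨1, one_pos, by simp⟩
  | succ n ih =>
    obtain ⟨q, hq, h⟩ := ih
    refine ⟨(x + n) * q, by positivity, ?_⟩
    have hx' : (0 : ℝ) < x := by exact_mod_cast hx
    have h1 : (x : ℝ) + ((n + 1 : ℕ) : ℝ) = ((x : ℝ) + n) + 1 := by push_cast; ring
    rw [h1, Real.Gamma_add_one (by positivity), h]
    push_cast
    ring

theorem red_int (u v : ℚ) (hu : 0 < u) (hv : 0 < v) (z : ℤ) (hz : u = z) :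
    ∃ q : ℚ, 0 < q ∧ inc u v 1 = q := by
  have hz0 : 0 < z := by
    rw [hz] at hu
    exact_mod_cast hu
  obtain ⟨n, rfl⟩ : ∃ n : ℕ, z = n + 1 := ⟨(z - 1).toNat, by omega⟩
  subst hz
  obtain ⟨q1, hq1, h1⟩ := gamma_add_nat 1 one_pos n
  obtain ⟨q2, hq2, h2⟩ := gamma_add_nat v hv (n + 1)
  refine ⟨q1 / q2, by positivity, ?_⟩
  have hv' : (0 : ℝ) < v := by exact_mod_cast hv
  have hG : 0 < Real.Gamma (v : ℝ) := Real.Gamma_pos_of_pos hv'
  have hu' : (0 : ℝ) < (((((n : ℤ) + 1 : ℤ) : ℚ)) : ℝ) := by exact_mod_cast hu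
  rw [inc_eq _ _ hu' hv']
  have e1 : (((((n : ℤ) + 1 : ℤ) : ℚ)) : ℝ) = ((1 : ℚ) : ℝ) + n := by push_cast; ring
  have e2 : ((1 : ℚ) : ℝ) + n + (v : ℝ) = (v : ℝ) + ((n + 1 : ℕ) : ℝ) := by push_cast; ring
  have hq2' : (q2 : ℝ) ≠ 0 := by exact_mod_cast hq2.ne'
  rw [e1, e2, h1, h2, Rat.cast_one, Real.Gamma_one]
  push_cast
  field_simp

theorem inc_symm (u v : ℝ) (hu : 0 < u) (hv : 0 < v) : inc u v 1 = inc v u 1 := by
  rw [inc_eq u v hu hv, inc_eq v u hv hu, mul_comm, add_comm]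

theorem t_RED : S_RED := by
  constructor
  · intro u v hu hv h
    have hu' : (0 : ℝ) < u := by exact_mod_cast hu
    have hv' : (0 : ℝ) < v := by exact_mod_cast hv
    rcases h with ⟨z, hz⟩ | ⟨z, hz⟩
    · exact red_int u v hu hv z hz
    · rw [inc_symm _ _ hu' hv']
      exact red_int v u hv hu z hz
  · intro u v hu hv hzu hzv
    have hfu : 0 < Int.fract u := by
      rcases (Int.fract_nonneg u).lt_or_eq with h | h
      · exact h
      · exfalso
        apply hzu ⌊u⌋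
        have := Int.floor_add_fract u
        rw [← h, add_zero] at this
        exact this.symm
    have hfv : 0 < Int.fract v := by
      rcases (Int.fract_nonneg v).lt_or_eq with h | h
      · exact h
      · exfalso
        apply hzv ⌊v⌋
        have := Int.floor_add_fract v
        rw [← h, add_zero] at this
        exact this.symm
    obtain ⟨n, hn⟩ : ∃ n : ℕ, ⌊u⌋ = n := ⟨⌊u⌋.toNat, (Int.toNat_of_nonneg (Int.floor_nonneg.mpr hu.le)).symm⟩
    obtain ⟨m, hm⟩ : ∃ m : ℕ, ⌊v⌋ = m := ⟨⌊v⌋.toNat, (Int.toNat_of_nonneg (Int.floor_nonneg.mpr hv.le)).symm⟩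
    obtain ⟨q1, hq1, h1⟩ := gamma_add_nat (Int.fract u) hfu n
    obtain ⟨q2, hq2, h2⟩ := gamma_add_nat (Int.fract v) hfv m
    obtain ⟨q3, hq3, h3⟩ := gamma_add_nat (Int.fract u + Int.fract v) (by positivity) (n + m)
    refine ⟨q1 * q2 / q3, by positivity, ?_⟩
    have hu' : (0 : ℝ) < u := by exact_mod_cast hu
    have hv' : (0 : ℝ) < v := by exact_mod_cast hv
    have hfu' : (0 : ℝ) < (Int.fract u : ℚ) := by exact_mod_cast hfu
    have hfv' : (0 : ℝ) < (Int.fract v : ℚ) := by exact_mod_cast hfv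
    rw [inc_eq _ _ hu' hv', inc_eq _ _ hfu' hfv']
    have eu : (u : ℝ) = ((Int.fract u : ℚ) : ℝ) + n := by
      have h4 := Int.fract_add_floor u
      rw [hn] at h4
      exact_mod_cast h4.symm
    have ev : (v : ℝ) = ((Int.fract v : ℚ) : ℝ) + m := by
      have h4 := Int.fract_add_floor v
      rw [hm] at h4
      exact_mod_cast h4.symm
    have e3 : (u : ℝ) + v = ((Int.fract u + Int.fract v : ℚ) : ℝ) + ((n + m : ℕ) : ℝ) := by
      rw [eu, ev]
      push_cast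
      ring
    have g1 : Real.Gamma (u : ℝ) = q1 * Real.Gamma ((Int.fract u : ℚ) : ℝ) := by
      rw [← h1, ← eu]
    have g2 : Real.Gamma (v : ℝ) = q2 * Real.Gamma ((Int.fract v : ℚ) : ℝ) := by
      rw [← h2, ← ev]
    have g3 : Real.Gamma ((u : ℝ) + v) =
        q3 * Real.Gamma (((Int.fract u : ℚ) : ℝ) + ((Int.fract v : ℚ) : ℝ)) := by
      rw [e3, h3, Rat.cast_add]
    rw [g1, g2, g3]
    have hq3' : (q3 : ℝ) ≠ 0 := by exact_mod_cast hq3.ne'
    have hG : Real.Gamma (((Int.fract u : ℚ) : ℝ) + ((Int.fract v : ℚ) : ℝ)) ≠ 0 :=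
      (Real.Gamma_pos_of_pos (by positivity)).ne'
    rw [Rat.cast_div, Rat.cast_mul]
    field_simp

end Pool.Agent.Q150.IB
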